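import Mathlib
import Pool.Agent.Helper23_LAP.Stmts

/-!
# LAP, modules SK3 and SK4
-/

set_option autoImplicit false

namespace Pool.Agent.LAP.H37

open scoped Classical
open Pool.Agent.LAP

/-- A single site is linked. -/
lemma lnk_single {W : Type} (r : W → W → Prop) (z : W) : Lnk r {z} := by
  refine ⟨Finset.singleton_nonempty z, ?_⟩
  intro u hu v hv
  rw [Finset.mem_singleton] at hu hv
  subst hu
  subst hv
  exact Relation.ReflTransGen.refl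

lemma pr_mono {U S : Type} [Fintype U] [Fintype S] {A B : Set (U → S)} (h : A ⊆ B) :
    pr A ≤ pr B := by
  unfold pr
  apply div_le_div_of_nonneg_right _ (by positivity)
  have : (Finset.univ.filter fun ω => ω ∈ A).card ≤ (Finset.univ.filter fun ω => ω ∈ B).card := by
    apply Finset.card_le_card
    intro ω hω
    rw [Finset.mem_filter] at hω ⊢
    exact ⟨hω.1, h hω.2⟩
  exact_mod_cast this

lemma count_eq {q P' : ℕ} (hP : 0 < P') (c : Fin q) {W : Type} (S : Finset W)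
    (ω : Fin q × W → Fin P') :
    (∑ u ∈ S.image (fun w => (c, w)),
      if ω u ∈ ({⟨0, hP⟩} : Finset (Fin P')) then (1 : ℝ) else 0) =
      ((S.filter fun w => (ω (c, w)).val = 0).card : ℝ) := by
  rw [Finset.sum_image (by intro a _ b _ h; exact (Prod.ext_iff.1 h).2), Finset.card_filter]
  push_cast
  apply Finset.sum_congr rfl
  intro w _
  have : (ω (c, w) ∈ ({⟨0, hP⟩} : Finset (Fin P'))) ↔ (ω (c, w)).val = 0 := by
    rw [Finset.mem_singleton, Fin.ext_iff]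
  simp only [this]

lemma sum_eq {q P' : ℕ} (hP : 0 < P') (c : Fin q) {W : Type} (S : Finset W) :
    (∑ _u ∈ S.image (fun w => (c, w)), (1 : ℝ) *
      ((((({⟨0, hP⟩} : Finset (Fin P'))).card : ℕ) : ℝ) / (Fintype.card (Fin P') : ℝ))) =
      (S.card : ℝ) / P' := by
  rw [Finset.sum_const, Finset.card_image_of_injective _
    (by intro a b h; exact (Prod.ext_iff.1 h).2)]
  simp
  rfl

/-- Lower tail event at one site. -/
lemma sk_low (hTL : THLStmt) {W : Type} [Fintype W] (r : W → W → Prop) {q P' L : ℕ} (hP : 0 < P')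
    (c : Fin q) (S : Finset W) (z : W) (hS : ∀ w ∈ S, nr3 r w z) (loc : Fin q × W → Finset W)
    (hloc : ∀ u, loc u = {u.2}) (N : (Fin q × W → Fin P') → ℝ)
    (hN : ∀ ω, N ω = ((S.filter fun w => (ω (c, w)).val = 0).card : ℝ))
    (e t μ m : ℝ) (he0 : 0 ≤ e) (he1 : e ≤ 1) (hμ0 : 0 ≤ μ) (hμ : μ ≤ (S.card : ℝ) / P')
    (hm : m ≤ (1 - e) * μ - t) (hE : (L : ℝ) ^ 2 ≤ e * (e * μ / 2 + t)) :
    Ev r L loc {ω : Fin q × W → Fin P' | ¬ (m ≤ N ω)} {z} := by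
  right
  refine ⟨lnk_single r z, ⟨S.image (fun w => (c, w)), ?_, ?_⟩, ?_⟩
  · intro ω ω' h hω
    have h1 : N ω' = N ω := by
      rw [hN, hN]
      congr 2
      apply Finset.filter_congr
      intro w hw
      rw [h (c, w) (Finset.mem_image_of_mem _ hw)]
    show ¬ (m ≤ N ω')
    rw [h1]
    exact hω
  · intro u hu
    rw [Finset.mem_image] at hu
    obtain ⟨w, hw, rfl⟩ := hu
    exact ⟨w, by rw [hloc]; simp, z, Finset.mem_singleton_self z, hS w hw⟩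
  · have : Nonempty (Fin P') := ⟨⟨0, hP⟩⟩
    have h1 := hTL (Fin q × W) (Fin P') (S.image (fun w => (c, w))) (fun _ => 1)
      (fun _ => {⟨0, hP⟩}) 1 e t μ one_pos he0 he1 hμ0 (fun _ _ => ⟨zero_le_one, le_refl 1⟩)
      (by rw [sum_eq hP]; exact hμ)
    refine (pr_mono ?_).trans (h1.trans (Real.exp_le_exp.2 ?_))
    · intro ω hω
      have h2 : ¬ (m ≤ N ω) := hω
      have h3 := count_eq hP c S ω
      rw [← hN] at h3
      push Not at h2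
      have h4 : N ω ≤ (1 - e) * μ - t := by linarith
      rw [← h3] at h4
      rw [Set.mem_ofPred_eq]
      convert h4
    · rw [Finset.card_singleton]
      push_cast
      rw [div_one]
      linarith

/-- Upper tail event at one site. -/
lemma sk_high (hTU : THUStmt) {W : Type} [Fintype W] (r : W → W → Prop) {q P' L : ℕ} (hP : 0 < P')
    (c : Fin q) (S : Finset W) (z : W) (hS : ∀ w ∈ S, nr3 r w z) (loc : Fin q × W → Finset W)
    (hloc : ∀ u, loc u = {u.2}) (N : (Fin q × W → Fin P') → ℝ)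
    (hN : ∀ ω, N ω = ((S.filter fun w => (ω (c, w)).val = 0).card : ℝ))
    (e t μ m : ℝ) (he0 : 0 ≤ e) (he1 : e ≤ 1) (hμ : (S.card : ℝ) / P' ≤ μ)
    (hm : (1 + e) * μ + t ≤ m) (hE : (L : ℝ) ^ 2 ≤ e * t) :
    Ev r L loc {ω : Fin q × W → Fin P' | ¬ (N ω ≤ m)} {z} := by
  right
  refine ⟨lnk_single r z, ⟨S.image (fun w => (c, w)), ?_, ?_⟩, ?_⟩
  · intro ω ω' h hω
    have h1 : N ω' = N ω := by
      rw [hN, hN]
      congr 2
      apply Finset.filter_congr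
      intro w hw
      rw [h (c, w) (Finset.mem_image_of_mem _ hw)]
    show ¬ (N ω' ≤ m)
    rw [h1]
    exact hω
  · intro u hu
    rw [Finset.mem_image] at hu
    obtain ⟨w, hw, rfl⟩ := hu
    exact ⟨w, by rw [hloc]; simp, z, Finset.mem_singleton_self z, hS w hw⟩
  · have : Nonempty (Fin P') := ⟨⟨0, hP⟩⟩
    have h1 := hTU (Fin q × W) (Fin P') (S.image (fun w => (c, w))) (fun _ => 1)
      (fun _ => {⟨0, hP⟩}) 1 e t μ one_pos he0 he1 (fun _ _ => ⟨zero_le_one, le_refl 1⟩)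
      (by rw [sum_eq hP]; exact hμ)
    refine (pr_mono ?_).trans (h1.trans (Real.exp_le_exp.2 ?_))
    · intro ω hω
      have h2 : ¬ (N ω ≤ m) := hω
      have h3 := count_eq hP c S ω
      rw [← hN] at h3
      push Not at h2
      have h4 : (1 + e) * μ + t ≤ N ω := by linarith
      rw [← h3] at h4
      rw [Set.mem_ofPred_eq]
      convert h4
    · rw [Finset.card_singleton]
      push_cast
      rw [div_one]
      linarith

section

variable {α β : Type} [Fintype α] [Fintype β] {q P' : ℕ}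

omit [Fintype α] in
lemma cardY (R : Finset (α × β)) (Y : Fin q → Finset β) (x : α) (c : Fin q)
    (ω : Fin q × (α ⊕ β) → Fin P') :
    ((out R x ∩ skY Y ω c).card : ℝ) =
      ((((out R x ∩ Y c).image (Sum.inr : β → α ⊕ β)).filter
        fun w => (ω (c, w)).val = 0).card : ℝ) := by
  have : (out R x ∩ skY Y ω c).image (Sum.inr : β → α ⊕ β) =
      (((out R x ∩ Y c).image (Sum.inr : β → α ⊕ β)).filter fun w => (ω (c, w)).val = 0) := by
    ext w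
    simp only [skY, Finset.mem_image, Finset.mem_inter, Finset.mem_filter]
    constructor
    · rintro ⟨y, ⟨h1, h2, h3⟩, rfl⟩
      exact ⟨⟨y, ⟨h1, h2⟩, rfl⟩, h3⟩
    · rintro ⟨⟨y, ⟨h1, h2⟩, rfl⟩, h3⟩
      exact ⟨y, ⟨h1, h2, h3⟩, rfl⟩
  rw [← this, Finset.card_image_of_injective _ Sum.inr_injective]

omit [Fintype β] in
lemma cardX (R : Finset (α × β)) (X : Fin q → Finset α) (y : β) (c : Fin q)
    (ω : Fin q × (α ⊕ β) → Fin P') :
    ((inn R y ∩ skX X ω c).card : ℝ) =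
      ((((inn R y ∩ X c).image (Sum.inl : α → α ⊕ β)).filter
        fun w => (ω (c, w)).val = 0).card : ℝ) := by
  have : (inn R y ∩ skX X ω c).image (Sum.inl : α → α ⊕ β) =
      (((inn R y ∩ X c).image (Sum.inl : α → α ⊕ β)).filter fun w => (ω (c, w)).val = 0) := by
    ext w
    simp only [skX, Finset.mem_image, Finset.mem_inter, Finset.mem_filter]
    constructor
    · rintro ⟨y, ⟨h1, h2, h3⟩, rfl⟩
      exact ⟨⟨y, ⟨h1, h2⟩, rfl⟩, h3⟩
    · rintro ⟨⟨y, ⟨h1, h2⟩, rfl⟩, h3⟩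
      exact ⟨y, ⟨h1, h2, h3⟩, rfl⟩
  rw [← this, Finset.card_image_of_injective _ Sum.inl_injective]

omit [Fintype α] in
lemma nearY (E R : Finset (α × β)) (hR : R ⊆ E) (Y : Finset β) (x : α) :
    ∀ w ∈ (out R x ∩ Y).image (Sum.inr : β → α ⊕ β), nr3 (sadj E) w (Sum.inl x) := by
  intro w hw
  rw [Finset.mem_image] at hw
  obtain ⟨y, hy, rfl⟩ := hw
  have h1 : (x, y) ∈ R := by
    have := (Finset.mem_inter.1 hy).1
    unfold out at this
    exact (Finset.mem_filter.1 this).2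
  refine ⟨Sum.inl x, Sum.inl x, Or.inr ?_, Or.inl rfl, Or.inl rfl⟩
  exact hR h1

omit [Fintype β] in
lemma nearX (E R : Finset (α × β)) (hR : R ⊆ E) (X : Finset α) (y : β) :
    ∀ w ∈ (inn R y ∩ X).image (Sum.inl : α → α ⊕ β), nr3 (sadj E) w (Sum.inr y) := by
  intro w hw
  rw [Finset.mem_image] at hw
  obtain ⟨x, hx, rfl⟩ := hw
  have h1 : (x, y) ∈ R := by
    have := (Finset.mem_inter.1 hx).1
    unfold inn at this
    exact (Finset.mem_filter.1 this).2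
  refine ⟨Sum.inr y, Sum.inr y, Or.inr ?_, Or.inl rfl, Or.inl rfl⟩
  exact hR h1

end

/-- The arithmetic of SK3. -/
lemma sk3_arith {k L q : ℕ} {D δ η r T Rr ζ : ℝ} {P P' : ℕ}
    (h : Prm k L q D δ η r T Rr ζ P P') {N : ℝ} (hN : (1 - δ) * D ≤ N) :
    0 < P' ∧ (0 : ℝ) ≤ 1 / (L : ℝ) ^ 4 ∧ 1 / (L : ℝ) ^ 4 ≤ 1 ∧ 0 ≤ (1 - δ) * ζ ∧
      (1 - δ) * ζ ≤ N / P' ∧
      (1 - 9 / (L : ℝ) ^ 3) * ζ ≤ (1 - 1 / (L : ℝ) ^ 4) * ((1 - δ) * ζ) - (L : ℝ) ^ 6 ∧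
      (L : ℝ) ^ 2 ≤ 1 / (L : ℝ) ^ 4 * (1 / (L : ℝ) ^ 4 * ((1 - δ) * ζ) / 2 + (L : ℝ) ^ 6) := by
  have hL : (10 ^ 4 : ℝ) ≤ L := by exact_mod_cast h.L4
  have hL0 : (0 : ℝ) < L := by linarith
  have hL1 : (1 : ℝ) ≤ L := by linarith
  have hP0 : (0 : ℝ) < P' := by
    have := h.s3
    have h4 : (0 : ℝ) < (L : ℝ) ^ 4 := by positivity
    linarith
  have hP : 0 < P' := by exact_mod_cast hP0
  have hζ : 252 * (L : ℝ) ^ 13 ≤ ζ := by
    have h1 := h.z1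
    have h2 := h.r0
    have h3 : (0 : ℝ) < (L : ℝ) ^ 13 := by positivity
    have h4 : (0 : ℝ) ≤ 5 / (L : ℝ) ^ 2 := by positivity
    have h5 : 0 ≤ 5 / (L : ℝ) ^ 2 * (r + 252 * (L : ℝ) ^ 13 + 5) := by positivity
    linarith
  have hζ0 : 0 < ζ := lt_of_lt_of_le (by positivity) hζ
  have hL3 : (0 : ℝ) < (L : ℝ) ^ 3 := by positivity
  have hδ : δ ≤ 8 / (L : ℝ) ^ 3 := by
    rw [le_div_iff₀ hL3]
    exact h.d1
  have hL3' : (10 ^ 4 : ℝ) ≤ (L : ℝ) ^ 3 := by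
    calc (10 ^ 4 : ℝ) ≤ L := hL
      _ = L ^ 1 := by ring
      _ ≤ (L : ℝ) ^ 3 := pow_le_pow_right₀ hL1 (by norm_num)
  have h8 : 8 / (L : ℝ) ^ 3 ≤ 1 / 2 := by
    rw [div_le_div_iff₀ hL3 (by norm_num)]
    linarith
  have hδ1 : 0 < 1 - δ := by linarith
  have hL4 : (0 : ℝ) < (L : ℝ) ^ 4 := by positivity
  have he1 : 1 / (L : ℝ) ^ 4 ≤ 1 := by
    rw [div_le_one hL4]
    exact one_le_pow₀ hL1
  refine ⟨hP, by positivity, he1, by positivity, ?_, ?_, ?_⟩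
  · rw [le_div_iff₀ hP0]
    have h1 : (1 - δ) * (P' * ζ) ≤ (1 - δ) * D := mul_le_mul_of_nonneg_left h.s1 hδ1.le
    linarith
  · have h1 : (L : ℝ) ^ 6 ≤ 1 / (L : ℝ) ^ 3 * ζ / 2 := by
      rw [div_mul_eq_mul_div, one_mul, div_div, le_div_iff₀ (by positivity)]
      calc (L : ℝ) ^ 6 * ((L : ℝ) ^ 3 * 2) = 2 * (L : ℝ) ^ 9 := by ring
        _ ≤ 252 * (L : ℝ) ^ 13 := by
          have : (L : ℝ) ^ 9 ≤ (L : ℝ) ^ 13 := pow_le_pow_right₀ hL1 (by norm_num)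
          have h0 : (0 : ℝ) ≤ (L : ℝ) ^ 13 := by positivity
          linarith
        _ ≤ ζ := hζ
    have h2 : 1 / (L : ℝ) ^ 4 ≤ 1 / (L : ℝ) ^ 3 / 2 := by
      rw [div_div, div_le_div_iff₀ hL4 (by positivity)]
      calc 1 * ((L : ℝ) ^ 3 * 2) = 2 * (L : ℝ) ^ 3 := by ring
        _ ≤ L * (L : ℝ) ^ 3 := by
          apply mul_le_mul_of_nonneg_right _ hL3.le
          linarith
        _ = 1 * (L : ℝ) ^ 4 := by ring
    have h3 : (1 - 1 / (L : ℝ) ^ 4) * ((1 - δ) * ζ) =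
        ζ - δ * ζ - 1 / (L : ℝ) ^ 4 * ζ + 1 / (L : ℝ) ^ 4 * (δ * ζ) := by ring
    have h4 : δ * ζ ≤ 8 / (L : ℝ) ^ 3 * ζ := mul_le_mul_of_nonneg_right hδ hζ0.le
    have h5 : 1 / (L : ℝ) ^ 4 * ζ ≤ 1 / (L : ℝ) ^ 3 / 2 * ζ :=
      mul_le_mul_of_nonneg_right h2 hζ0.le
    have h6 : 0 ≤ 1 / (L : ℝ) ^ 4 * (δ * ζ) := by
      have := h.d0
      positivity
    have h7 : (1 - 9 / (L : ℝ) ^ 3) * ζ = ζ - 8 / (L : ℝ) ^ 3 * ζ - 1 / (L : ℝ) ^ 3 * ζ := by ring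
    rw [h3, h7]
    linarith
  · have h1 : 0 ≤ 1 / (L : ℝ) ^ 4 * ((1 - δ) * ζ) / 2 := by positivity
    calc (L : ℝ) ^ 2 = 1 / (L : ℝ) ^ 4 * (0 + (L : ℝ) ^ 6) := by field_simp; ring
      _ ≤ _ := by gcongr

/-- The arithmetic of SK4. -/
lemma sk4_arith {k L q : ℕ} {D δ η r T Rr ζ : ℝ} {P P' : ℕ}
    (h : Prm k L q D δ η r T Rr ζ P P') {N : ℝ} (hN : N ≤ (1 + δ) * D) :
    0 < P' ∧ N / P' ≤ (1 + δ) * D / P' ∧
      (1 + 1) * ((1 + δ) * D / P') + (L : ℝ) ^ 2 ≤ 5 / (L : ℝ) ^ 4 * D := by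
  have hL : (10 ^ 4 : ℝ) ≤ L := by exact_mod_cast h.L4
  have hL0 : (0 : ℝ) < L := by linarith
  have hL1 : (1 : ℝ) ≤ L := by linarith
  have hP0 : (0 : ℝ) < P' := by
    have := h.s3
    have h4 : (0 : ℝ) < (L : ℝ) ^ 4 := by positivity
    linarith
  have hP : 0 < P' := by exact_mod_cast hP0
  have hL3 : (0 : ℝ) < (L : ℝ) ^ 3 := by positivity
  have hδ : δ ≤ 8 / (L : ℝ) ^ 3 := by
    rw [le_div_iff₀ hL3]
    exact h.d1
  have hL3' : (10 ^ 4 : ℝ) ≤ (L : ℝ) ^ 3 := by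
    calc (10 ^ 4 : ℝ) ≤ L := hL
      _ = L ^ 1 := by ring
      _ ≤ (L : ℝ) ^ 3 := pow_le_pow_right₀ hL1 (by norm_num)
  have h8 : 8 / (L : ℝ) ^ 3 ≤ 1 / 8 := by
    rw [div_le_div_iff₀ hL3 (by norm_num)]
    linarith
  have hD : (L : ℝ) ^ 19 ≤ D := h.D1
  have hD0 : 0 < D := lt_of_lt_of_le (by positivity) hD
  have hL4 : (0 : ℝ) < (L : ℝ) ^ 4 := by positivity
  refine ⟨hP, div_le_div_of_nonneg_right hN hP0.le, ?_⟩
  have h1 : D / P' ≤ 2 / (L : ℝ) ^ 4 * D := by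
    rw [div_le_iff₀ hP0]
    have h2 := h.s3
    calc D = 1 / (L : ℝ) ^ 4 * D * (L : ℝ) ^ 4 := by field_simp
      _ ≤ 1 / (L : ℝ) ^ 4 * D * (2 * P') := by gcongr
      _ = 2 / (L : ℝ) ^ 4 * D * P' := by ring
  have h2 : (L : ℝ) ^ 2 ≤ 1 / 2 / (L : ℝ) ^ 4 * D := by
    rw [div_mul_eq_mul_div, le_div_iff₀ hL4]
    calc (L : ℝ) ^ 2 * (L : ℝ) ^ 4 = (L : ℝ) ^ 6 := by ring
      _ ≤ 1 / 2 * (L : ℝ) ^ 19 := by
        have : 2 * (L : ℝ) ^ 6 ≤ (L : ℝ) ^ 19 := by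
          calc 2 * (L : ℝ) ^ 6 ≤ L * (L : ℝ) ^ 6 := by gcongr; linarith
            _ = (L : ℝ) ^ 7 := by ring
            _ ≤ (L : ℝ) ^ 19 := pow_le_pow_right₀ hL1 (by norm_num)
        linarith
      _ ≤ 1 / 2 * D := by gcongr
  have h3 : (1 + δ) * D / P' ≤ (1 + 1 / 8) * (2 / (L : ℝ) ^ 4 * D) := by
    rw [mul_div_assoc]
    have hDP : 0 ≤ D / P' := by positivity
    apply mul_le_mul _ h1 hDP (by norm_num)
    linarith
  calc (1 + 1) * ((1 + δ) * D / P') + (L : ℝ) ^ 2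
      ≤ (1 + 1) * ((1 + 1 / 8) * (2 / (L : ℝ) ^ 4 * D)) + 1 / 2 / (L : ℝ) ^ 4 * D := by
        gcongr
    _ = 5 / (L : ℝ) ^ 4 * D := by ring

/-- SK3. -/
theorem sk3 (hTHL : THLStmt) : SK3Stmt := by
  intro k L q D δ η r T Rr ζ P P' h α β _ _ E R X Y hCl c
  refine ⟨fun x => ?_, fun y => ?_⟩
  · obtain ⟨hP, a1, a2, a3, a4, a5, a6⟩ := sk3_arith h ((hCl c).ol x)
    refine sk_low hTHL (sadj E) hP c ((out R x ∩ Y c).image (Sum.inr : β → α ⊕ β)) (Sum.inl x)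
      (nearY E R (hCl c).sub (Y c) x) locK (fun _ => rfl) _ (fun ω => cardY R Y x c ω)
      (1 / (L : ℝ) ^ 4) ((L : ℝ) ^ 6) ((1 - δ) * ζ) _ a1 a2 a3 ?_ a5 a6
    rw [Finset.card_image_of_injective _ Sum.inr_injective]
    exact a4
  · obtain ⟨hP, a1, a2, a3, a4, a5, a6⟩ := sk3_arith h ((hCl c).il y)
    refine sk_low hTHL (sadj E) hP c ((inn R y ∩ X c).image (Sum.inl : α → α ⊕ β)) (Sum.inr y)
      (nearX E R (hCl c).sub (X c) y) locK (fun _ => rfl) _ (fun ω => cardX R X y c ω)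
      (1 / (L : ℝ) ^ 4) ((L : ℝ) ^ 6) ((1 - δ) * ζ) _ a1 a2 a3 ?_ a5 a6
    rw [Finset.card_image_of_injective _ Sum.inl_injective]
    exact a4

/-- SK4. -/
theorem sk4 (hTHU : THUStmt) : SK4Stmt := by
  intro k L q D δ η r T Rr ζ P P' h α β _ _ E R X Y hCl c
  refine ⟨fun x => ?_, fun y => ?_⟩
  · obtain ⟨hP, a1, a2⟩ := sk4_arith h ((hCl c).ou x)
    refine sk_high hTHU (sadj E) hP c ((out E x ∩ Y c).image (Sum.inr : β → α ⊕ β)) (Sum.inl x)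
      (nearY E E (Finset.Subset.refl E) (Y c) x) locK (fun _ => rfl) _
      (fun ω => cardY E Y x c ω)
      1 ((L : ℝ) ^ 2) ((1 + δ) * D / P') _ zero_le_one (le_refl 1) ?_ a2 (by linarith)
    rw [Finset.card_image_of_injective _ Sum.inr_injective]
    exact a1
  · obtain ⟨hP, a1, a2⟩ := sk4_arith h ((hCl c).iu y)
    refine sk_high hTHU (sadj E) hP c ((inn E y ∩ X c).image (Sum.inl : α → α ⊕ β)) (Sum.inr y)
      (nearX E E (Finset.Subset.refl E) (X c) y) locK (fun _ => rfl) _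
      (fun ω => cardX E X y c ω)
      1 ((L : ℝ) ^ 2) ((1 + δ) * D / P') _ zero_le_one (le_refl 1) ?_ a2 (by linarith)
    rw [Finset.card_image_of_injective _ Sum.inl_injective]
    exact a1

end Pool.Agent.LAP.H37
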